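import Pool.Agent.helper78.HFN.Spec

/-!
# Row TWO of project HFN (MP_3221a1_ag)
-/

set_option autoImplicit false

open Polynomial Module

namespace Pool.Agent.HFN

noncomputable section

theorem TWO_map (J : Ideal AA) (i j : ℕ) :
    (V j i ⊓ (J.comap (sw : AA →+* AA)).restrictScalars ℂ : Submodule ℂ AA) =
      (V i j ⊓ J.restrictScalars ℂ : Submodule ℂ AA).map (sw.toLinearEquiv : AA →ₗ[ℂ] AA) := by
  ext f
  constructor
  · rintro ⟨h1, h2⟩
    refine ⟨sw f, ⟨sw_mem_V.2 h1, h2⟩, ?_⟩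
    show sw (sw f) = f
    exact sw_sw f
  · rintro ⟨g, ⟨h1, h2⟩, rfl⟩
    refine ⟨sw_mem_V.2 h1, ?_⟩
    show sw (sw g) ∈ J
    rw [sw_sw]
    exact h2

theorem TWO_hd (J : Ideal AA) (i j : ℕ) : hd (J.comap (sw : AA →+* AA)) j i = hd J i j := by
  unfold hd
  rw [TWO_map, LinearEquiv.finrank_map_eq]

theorem TWO_rp {G1 G2 : AA} (h : IsRelPrime G1 G2) : IsRelPrime (sw G1) (sw G2) := by
  intro d h1 h2
  have h3 : sw d ∣ G1 := by
    have := map_dvd sw h1
    rwa [sw_sw] at this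
  have h4 : sw d ∣ G2 := by
    have := map_dvd sw h2
    rwa [sw_sw] at this
  have h5 : IsUnit (sw (sw d)) := (h h3 h4).map sw
  rwa [sw_sw] at h5

theorem TWO (hONE : ONE_stmt) : TWO_stmt := by
  intro J G1 G2 p q m n h1 h2 hrp hV1 hV2 hp hq
  have h := hONE (J.comap (sw : AA →+* AA)) (sw G1) (sw G2) q p n m
    (by
      show sw (sw G1) ∈ J
      rw [sw_sw]
      exact h1)
    (by
      show sw (sw G2) ∈ J
      rw [sw_sw]
      exact h2)
    (TWO_rp hrp) (sw_mem_V.2 hV1) (sw_mem_V.2 hV2) hq hp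
  rw [TWO_hd, TWO_hd] at h
  exact h

end

end Pool.Agent.HFN
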